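import Pool.Agent.N541.LV.Stm

/-!
# Project LV: first moment of the sublattices (DROP)

Written by helper432 for project LV of helper541.
-/

set_option autoImplicit false

namespace Pool.Agent.N432.LV.Drop

open Finset Pool.Agent.N541.LV

theorem mem_pts {d : ℕ} {Λ : AddSubgroup (Fin d → ℤ)} {R : Fin d → ℕ} {Q : Fin d → ℤ} :
    Q ∈ pts Λ R ↔ (∀ l, |Q l| ≤ (R l : ℤ)) ∧ Q ∈ Λ := by
  classical
  unfold pts Pool.Agent.N541.LV.box
  rw [Finset.mem_filter, Fintype.mem_piFinset]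
  refine and_congr_left fun _ => forall_congr' fun l => ?_
  rw [Finset.mem_Icc, abs_le]

theorem mem_sub {d m : ℕ} {Λ : AddSubgroup (Fin d → ℤ)} {o : Fin m → ℕ} {z : ℕ}
    {Q : Fin d → ℤ} : Q ∈ sub Λ o z ↔ Q ∈ Λ ∧ Mo o z ∣ ev Q z := Iff.rfl

theorem ev_add {d : ℕ} (P Q : Fin d → ℤ) (t : ℤ) : ev (P + Q) t = ev P t + ev Q t := by
  simp [ev, add_mul, Finset.sum_add_distrib]

/-- the number of `z` for which `z - o` divides a given nonzero number -/
theorem card_dvd (Z : Finset ℕ) (o : ℕ) (n : ℤ) (hn : n ≠ 0) :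
    (Z.filter (fun z : ℕ => ((z : ℤ) - (o : ℤ)) ∣ n)).card ≤ 2 * n.natAbs.divisors.card := by
  classical
  have h1 : (Z.filter (fun z : ℕ => ((z : ℤ) - (o : ℤ)) ∣ n)).card =
      ((Z.filter (fun z : ℕ => ((z : ℤ) - (o : ℤ)) ∣ n)).image (fun z : ℕ => (z : ℤ) - (o : ℤ))).card := by
    rw [Finset.card_image_of_injective]
    intro a b h
    simpa using h
  rw [h1, two_mul]
  refine (Finset.card_le_card (t := n.natAbs.divisors.image (fun d : ℕ => (d : ℤ)) ∪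
    n.natAbs.divisors.image (fun d : ℕ => -(d : ℤ))) ?_).trans ((Finset.card_union_le _ _).trans
      (add_le_add Finset.card_image_le Finset.card_image_le))
  intro x hx
  rw [Finset.mem_image] at hx
  obtain ⟨z, hz, rfl⟩ := hx
  have hz2 := (Finset.mem_filter.1 hz).2
  have hdiv : ((z : ℤ) - (o : ℤ)).natAbs ∈ n.natAbs.divisors := by
    rw [Nat.mem_divisors]
    exact ⟨Int.natAbs_dvd_natAbs.2 hz2, Int.natAbs_ne_zero.2 hn⟩
  rw [Finset.mem_union, Finset.mem_image, Finset.mem_image]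
  rcases Int.natAbs_eq ((z : ℤ) - (o : ℤ)) with h | h
  · exact Or.inl ⟨_, hdiv, h.symm⟩
  · exact Or.inr ⟨_, hdiv, h.symm⟩

theorem main (hC : COVStm) (hK : CONGStm) (hD : DIVStm) : DROPStm := by
  classical
  intro d m s C0 hd hm ε hε
  have he1 : 0 < ε / ((s : ℝ) + d + 1) := by positivity
  obtain ⟨C1, hC1, hdiv⟩ := hD _ he1
  set ε1 : ℝ := ε / ((s : ℝ) + d + 1) with hε1
  refine ⟨4 * C1 * (2 * (d : ℝ) * C0 + 1) ^ ε1 * 5 ^ d, by positivity, ?_⟩
  intro X hX R hR Λ o ho Z hZ hP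
  set j0 : Fin m := ⟨0, hm⟩ with hj0
  set D : Finset (Fin d → ℤ) := (pts Λ (fun l => 2 * R l)).filter (fun Q => ev Q (o j0 : ℤ) ≠ 0)
    with hDdef
  -- step 1
  have h1 : ∀ z ∈ Z, (pts (sub Λ o z) R).card ≤ 2 * (D.filter (fun Q => Q ∈ sub Λ o z)).card := by
    intro z hz
    obtain ⟨P, hPp, hPz, hPo⟩ := hP z hz
    rw [← Finset.card_filter_add_card_filter_not (s := pts (sub Λ o z) R)
      (fun Q => ev Q (o j0 : ℤ) ≠ 0), two_mul]
    have hPm := mem_pts.1 hPp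
    refine add_le_add (Finset.card_le_card ?_) ?_
    · intro Q hQ
      rw [Finset.mem_filter] at hQ
      have hQ1 := mem_pts.1 hQ.1
      rw [Finset.mem_filter, hDdef, Finset.mem_filter]
      refine ⟨⟨mem_pts.2 ⟨fun l => ?_, hQ1.2.1⟩, hQ.2⟩, hQ1.2⟩
      refine (hQ1.1 l).trans ?_
      push_cast
      have : (0 : ℤ) ≤ (R l : ℤ) := by positivity
      linarith
    · refine Finset.card_le_card_of_injOn (fun Q => Q + P) ?_ ?_
      · intro Q hQ
        rw [Finset.mem_coe, Finset.mem_filter] at hQ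
        have hQ1 := mem_pts.1 hQ.1
        have hQ2 : ev Q (o j0 : ℤ) = 0 := not_not.1 hQ.2
        rw [Finset.mem_coe, Finset.mem_filter, hDdef, Finset.mem_filter]
        refine ⟨⟨mem_pts.2 ⟨fun l => ?_, Λ.add_mem hQ1.2.1 hPm.2.1⟩, ?_⟩,
          (sub Λ o z).add_mem hQ1.2 hPm.2⟩
        · have ha := hQ1.1 l
          have hb := hPm.1 l
          have hc : |(Q + P) l| ≤ |Q l| + |P l| := abs_add_le _ _
          push_cast
          linarith
        · rw [ev_add, hQ2, zero_add]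
          exact hPo j0
      · intro a _ b _ h
        exact add_right_cancel h
  -- step 2
  have h2 : ∑ z ∈ Z, (D.filter (fun Q => Q ∈ sub Λ o z)).card ≤
      ∑ Q ∈ D, (Z.filter (fun z : ℕ => ((z : ℤ) - (o j0 : ℤ)) ∣ ev Q (o j0 : ℤ))).card := by
    have h3 : ∑ z ∈ Z, (D.filter (fun Q => Q ∈ sub Λ o z)).card =
        ∑ Q ∈ D, (Z.filter (fun z => Q ∈ sub Λ o z)).card := by
      simp only [Finset.card_filter]
      exact Finset.sum_comm
    rw [h3]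
    refine Finset.sum_le_sum fun Q _ => Finset.card_le_card ?_
    intro z hz
    rw [Finset.mem_filter] at hz ⊢
    refine ⟨hz.1, ?_⟩
    have h4 : ((z : ℤ) - (o j0 : ℤ)) ∣ Mo o z := by
      unfold Mo
      exact Finset.dvd_prod_of_mem (fun j => (z : ℤ) - (o j : ℤ)) (Finset.mem_univ j0)
    have h5 : ((z : ℤ) - (o j0 : ℤ)) ∣ ev Q (z : ℤ) := h4.trans hz.2.2
    have h6 := hK d Q (z : ℤ) (o j0 : ℤ)
    have h7 := dvd_sub h5 h6
    rwa [sub_sub_cancel] at h7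
  -- step 3
  have hX1 : (1 : ℝ) ≤ (X : ℝ) := by exact_mod_cast hX
  have h3 : ∀ Q ∈ D, ((Z.filter (fun z : ℕ => ((z : ℤ) - (o j0 : ℤ)) ∣ ev Q (o j0 : ℤ))).card : ℝ) ≤
      2 * (C1 * ((2 * (d : ℝ) * C0 + 1) ^ ε1 * (X : ℝ) ^ ε)) := by
    intro Q hQ
    rw [hDdef, Finset.mem_filter] at hQ
    have hQ1 := mem_pts.1 hQ.1
    have h4 : ((Z.filter (fun z : ℕ => ((z : ℤ) - (o j0 : ℤ)) ∣ ev Q (o j0 : ℤ))).card : ℝ) ≤
        2 * ((ev Q (o j0 : ℤ)).natAbs.divisors.card : ℝ) := by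
      exact_mod_cast card_dvd Z (o j0) _ hQ.2
    refine h4.trans (mul_le_mul_of_nonneg_left ?_ (by norm_num))
    have h5 : 1 ≤ (ev Q (o j0 : ℤ)).natAbs := Nat.one_le_iff_ne_zero.2 (Int.natAbs_ne_zero.2 hQ.2)
    refine (hdiv _ h5).trans (mul_le_mul_of_nonneg_left ?_ hC1.le)
    have h6 : (((ev Q (o j0 : ℤ)).natAbs : ℕ) : ℝ) ≤ (2 * (d : ℝ) * C0 + 1) * (X : ℝ) ^ (s + d) := by
      have h7 : ((((ev Q (o j0 : ℤ)).natAbs : ℕ) : ℤ)) ≤ 2 * (d : ℤ) * C0 * (X : ℤ) ^ (s + d) := by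
        rw [Int.natCast_natAbs]
        unfold ev
        refine (Finset.abs_sum_le_sum_abs _ _).trans ?_
        have h8 : ∀ l : Fin d, |Q l * (o j0 : ℤ) ^ (l : ℕ)| ≤ 2 * C0 * (X : ℤ) ^ (s + d) := by
          intro l
          rw [abs_mul, abs_pow, Nat.abs_cast]
          have ha : |Q l| ≤ 2 * (C0 * (X : ℤ) ^ s) := by
            refine (hQ1.1 l).trans ?_
            push_cast
            have : ((R l : ℕ) : ℤ) ≤ C0 * (X : ℤ) ^ s := by exact_mod_cast (hR l).2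
            linarith
          have hb : ((o j0 : ℕ) : ℤ) ^ (l : ℕ) ≤ (X : ℤ) ^ d := by
            have hb1 : ((o j0 : ℕ) : ℤ) ≤ (X : ℤ) := by exact_mod_cast (ho j0).2
            have hb2 : (1 : ℤ) ≤ (X : ℤ) := by exact_mod_cast hX
            calc ((o j0 : ℕ) : ℤ) ^ (l : ℕ) ≤ (X : ℤ) ^ (l : ℕ) :=
                  pow_le_pow_left₀ (by positivity) hb1 _
              _ ≤ (X : ℤ) ^ d := pow_le_pow_right₀ hb2 l.2.le
          calc |Q l| * ((o j0 : ℕ) : ℤ) ^ (l : ℕ) ≤ (2 * (C0 * (X : ℤ) ^ s)) * (X : ℤ) ^ d :=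
                mul_le_mul ha hb (by positivity) (by positivity)
            _ = 2 * C0 * (X : ℤ) ^ (s + d) := by rw [pow_add]; ring
        refine (Finset.sum_le_sum fun l _ => h8 l).trans (le_of_eq ?_)
        rw [Finset.sum_const, Finset.card_univ, Fintype.card_fin, nsmul_eq_mul]
        ring
      have h9 : (((ev Q (o j0 : ℤ)).natAbs : ℕ) : ℝ) ≤ 2 * (d : ℝ) * C0 * (X : ℝ) ^ (s + d) := by
        exact_mod_cast h7
      refine h9.trans (mul_le_mul_of_nonneg_right (by linarith) (by positivity))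
    calc (((ev Q (o j0 : ℤ)).natAbs : ℕ) : ℝ) ^ ε1 ≤
        ((2 * (d : ℝ) * C0 + 1) * (X : ℝ) ^ (s + d)) ^ ε1 :=
          Real.rpow_le_rpow (by positivity) h6 he1.le
      _ = (2 * (d : ℝ) * C0 + 1) ^ ε1 * ((X : ℝ) ^ (s + d)) ^ ε1 :=
          Real.mul_rpow (by positivity) (by positivity)
      _ ≤ (2 * (d : ℝ) * C0 + 1) ^ ε1 * (X : ℝ) ^ ε := by
          refine mul_le_mul_of_nonneg_left ?_ (by positivity)
          rw [← Real.rpow_natCast, ← Real.rpow_mul (by positivity)]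
          refine Real.rpow_le_rpow_of_exponent_le hX1 ?_
          rw [hε1, mul_div_assoc', div_le_iff₀ (by positivity)]
          push_cast
          nlinarith [hε.le]
  -- the sum
  have hDcard : (D.card : ℝ) ≤ 5 ^ d * ((pts Λ R).card : ℝ) := by
    have h4 : D.card ≤ (pts Λ (fun l => 2 * R l)).card := Finset.card_filter_le _ _
    have h5 := hC d 2 Λ R (fun l => (hR l).1)
    have h6 : D.card ≤ 5 ^ d * (pts Λ R).card := h4.trans h5
    exact_mod_cast h6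
  have hK0 : 0 ≤ 2 * (C1 * ((2 * (d : ℝ) * C0 + 1) ^ ε1 * (X : ℝ) ^ ε)) := by positivity
  calc ∑ z ∈ Z, ((pts (sub Λ o z) R).card : ℝ)
      ≤ ∑ z ∈ Z, 2 * ((D.filter (fun Q => Q ∈ sub Λ o z)).card : ℝ) := by
        refine Finset.sum_le_sum fun z hz => ?_
        exact_mod_cast h1 z hz
    _ = 2 * ∑ z ∈ Z, ((D.filter (fun Q => Q ∈ sub Λ o z)).card : ℝ) := by rw [Finset.mul_sum]
    _ ≤ 2 * ∑ Q ∈ D, ((Z.filter (fun z : ℕ => ((z : ℤ) - (o j0 : ℤ)) ∣ ev Q (o j0 : ℤ))).card : ℝ) := by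
        refine mul_le_mul_of_nonneg_left ?_ (by norm_num)
        exact_mod_cast h2
    _ ≤ 2 * ∑ Q ∈ D, 2 * (C1 * ((2 * (d : ℝ) * C0 + 1) ^ ε1 * (X : ℝ) ^ ε)) := by
        refine mul_le_mul_of_nonneg_left (Finset.sum_le_sum h3) (by norm_num)
    _ = 2 * ((D.card : ℝ) * (2 * (C1 * ((2 * (d : ℝ) * C0 + 1) ^ ε1 * (X : ℝ) ^ ε)))) := by
        rw [Finset.sum_const, nsmul_eq_mul]
    _ ≤ 2 * ((5 ^ d * ((pts Λ R).card : ℝ)) * (2 * (C1 * ((2 * (d : ℝ) * C0 + 1) ^ ε1 * (X : ℝ) ^ ε)))) := by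
        refine mul_le_mul_of_nonneg_left (mul_le_mul_of_nonneg_right hDcard hK0) (by norm_num)
    _ = _ := by ring

end Pool.Agent.N432.LV.Drop
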